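import Pool.Agent.H33R3.Bom.Stmts2
import Pool.Agent.H33R3.Bom.I1

set_option autoImplicit false

/-! TASK M4 of project H33-BOM: assembly of the linear, quadratic and difference terms. -/

namespace Pool.Agent.H886R3.Bom2

open Complex Metric Set Filter Topology

open scoped ComplexConjugate

open Pool.Agent.H33R3.Bom Pool.Agent.H33R3.Bom.I1

lemma logs (n : ℕ) (hn : 2 ≤ n) :
    Real.log (2 * n) ≤ 1 + Real.log n ∧ 2 + Real.log (2 * n) ≤ 2.7 * (1 + Real.log n) ∧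
      0 ≤ Real.log n := by
  have hn' : (2 : ℝ) ≤ n := by exact_mod_cast hn
  have h1 : Real.log (2 * n) = Real.log 2 + Real.log n :=
    Real.log_mul (by norm_num) (by positivity)
  have h2 := Real.log_two_lt_d9
  have h3 : 0 ≤ Real.log n := Real.log_nonneg (by linarith)
  refine ⟨?_, ?_, h3⟩
  · rw [h1]; linarith
  · rw [h1]; nlinarith

lemma alg1 {z t h y : ℂ} (ht : t ≠ 0) (hy : y ≠ 0) (hh1 : z * h = y - t) (w : ℂ)
    (hw : w * y ^ 2 = z ^ 2) :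
    w = z ^ 2 * (1 / t ^ 2) - 2 * (z ^ 3 * h * (t⁻¹) ^ 3) +
      z ^ 4 * h ^ 2 * (2 * (t⁻¹) ^ 3 * y⁻¹ + (t⁻¹) ^ 2 * (y⁻¹) ^ 2) := by
  have e1 : w = z ^ 2 * (y⁻¹) ^ 2 := by
    field_simp
    linear_combination hw
  have e2 : z ^ 3 * h = z ^ 2 * (y - t) := by rw [← hh1]; ring
  have e3 : z ^ 4 * h ^ 2 = z ^ 2 * (y - t) ^ 2 := by rw [← hh1]; ring
  rw [e1, e2, e3]
  field_simp
  ring

lemma alg2 {z t h y : ℂ} (ht : t ≠ 0) (hy : y ≠ 0) (hh1 : z * h = y - t) (w : ℂ)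
    (hw : w * y ^ 2 = z ^ 2) :
    z ^ 2 * (1 / t ^ 2) = w +
      z ^ 3 * h * (t⁻¹ * (y⁻¹) ^ 2 + (t⁻¹) ^ 2 * y⁻¹) := by
  have e1 : w = z ^ 2 * (y⁻¹) ^ 2 := by
    field_simp
    linear_combination hw
  have e2 : z ^ 3 * h = z ^ 2 * (y - t) := by rw [← hh1]; ring
  rw [e1, e2]
  field_simp
  ring

theorem core (hep : ∀ Y : ℂ → ℂ, IsG Y → 0 ≤ ep Y) (hL : LinBound) (hQ : QuadBound)
    (hD : DiffBound) : CoeffBound2 := by
  intro f Y hf hY hfY n hn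
  have hep0 := hep Y hY
  have hhd := hh_diff Y hY
  have hYd := hY.diff
  have hYi : DifferentiableOn ℂ (fun z => (Y z)⁻¹) (ball 0 1) := hYd.fun_inv hY.ne
  have hkd : DifferentiableOn ℂ (fun z : ℂ => 1 - z ^ 2) (ball 0 1) := by fun_prop
  have hki : DifferentiableOn ℂ (fun z : ℂ => (1 - z ^ 2)⁻¹) (ball 0 1) :=
    hkd.fun_inv (fun z hz => ker_ne hz)
  have hp : ∀ k : ℕ, DifferentiableOn ℂ (fun z : ℂ => z ^ k) (ball 0 1) := fun k => by fun_prop
  set K0 : ℂ → ℂ := fun z => 1 / (1 - z ^ 2) ^ 2 with hK0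
  set F0 : ℂ → ℂ := fun z => z ^ 2 * K0 z with hF0
  set H : ℂ → ℂ := fun z => z ^ 3 * hh Y z * ((1 - z ^ 2)⁻¹) ^ 3 with hH
  set Q : ℂ → ℂ := fun z => z ^ 4 * (hh Y z) ^ 2 *
      (2 * ((1 - z ^ 2)⁻¹) ^ 3 * (Y z)⁻¹ + ((1 - z ^ 2)⁻¹) ^ 2 * ((Y z)⁻¹) ^ 2) with hQ'
  set E : ℂ → ℂ := fun z => z ^ 3 * hh Y z *
      ((1 - z ^ 2)⁻¹ * ((Y z)⁻¹) ^ 2 + ((1 - z ^ 2)⁻¹) ^ 2 * (Y z)⁻¹) with hE
  have dK0 : DifferentiableOn ℂ K0 (ball 0 1) := by
    apply DifferentiableOn.fun_div (differentiableOn_const _) (hkd.pow 2)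
    intro z hz
    exact pow_ne_zero _ (ker_ne hz)
  have dF0 : DifferentiableOn ℂ F0 (ball 0 1) := (hp 2).fun_mul dK0
  have dH : DifferentiableOn ℂ H (ball 0 1) := ((hp 3).fun_mul hhd).fun_mul (hki.fun_pow 3)
  have dQ : DifferentiableOn ℂ Q (ball 0 1) := by
    refine ((hp 4).fun_mul (hhd.fun_pow 2)).fun_mul ?_
    exact (((hki.fun_pow 3).const_mul 2).fun_mul hYi).fun_add
      ((hki.fun_pow 2).fun_mul (hYi.fun_pow 2))
  have dE : DifferentiableOn ℂ E (ball 0 1) := by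
    refine ((hp 3).fun_mul hhd).fun_mul ?_
    exact (hki.fun_mul (hYi.fun_pow 2)).fun_add ((hki.fun_pow 2).fun_mul hYi)
  have dHc := conj_diff dH
  have df2 : DifferentiableOn ℂ (fun z => f (z ^ 2)) (ball 0 1) := by
    refine hf.diff.fun_comp (hp 2) ?_
    intro z hz
    have hz' : ‖z‖ < 1 := by simpa using hz
    have : ‖z ^ 2‖ < 1 := by
      rw [norm_pow]; nlinarith [norm_nonneg z]
    simpa using this
  have hcf : coeff n f = coeff (2 * n) (fun z => f (z ^ 2)) := (coeff_sq (an hf.diff) n).symm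
  have hc0 : coeff (2 * n) F0 = n := by
    obtain ⟨m, rfl⟩ : ∃ m, n = m + 1 := ⟨n - 1, by omega⟩
    have h1 : 2 * (m + 1) = 2 * m + 2 := by ring
    rw [h1, hF0, coeff_shift (an dK0), hK0, coeff_koebe]
    push_cast
    ring
  have hc1 : coeff (2 * n) (fun z => f (z ^ 2)) =
      coeff (2 * n) F0 - 2 * coeff (2 * n) H + coeff (2 * n) Q := by
    rw [← coeff_three (an dF0) (an dH) (an dQ)]
    apply coeff_congr
    intro z hz
    exact alg1 (ker_ne hz) (hY.ne z hz) (Yeq Y hY z) _ (hfY z hz)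
  have hc2 : coeff (2 * n) F0 = coeff (2 * n) (fun z => f (z ^ 2)) + coeff (2 * n) E := by
    rw [← coeff_add (an df2) (an dE)]
    apply coeff_congr
    intro z hz
    exact alg2 (ker_ne hz) (hY.ne z hz) (Yeq Y hY z) _ (hfY z hz)
  have hc4 : coeff (2 * n) (fun z => z ^ 3 * UU Y z * ((1 - z ^ 2)⁻¹) ^ 3) =
      coeff (2 * n) H + conj (coeff (2 * n) H) := by
    rw [← coeff_conj (an dH), ← coeff_add (an dH) (an dHc)]
    apply coeff_congr
    intro z hz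
    simp only [hH, UU]
    simp only [map_mul, Complex.conj_conj, map_pow, map_sub, map_one, map_inv₀]
    ring
  obtain ⟨l1, l2, l3⟩ := logs n hn
  have hn' : (2 : ℝ) ≤ n := by exact_mod_cast hn
  have bL := hL Y hY n hn
  have bQ := hQ Y hY n hn
  have bE := hD Y hY n hn
  constructor
  · have h1 : ((n : ℂ) - coeff n f).re =
        (coeff (2 * n) (fun z => z ^ 3 * UU Y z * ((1 - z ^ 2)⁻¹) ^ 3)).re -
          (coeff (2 * n) Q).re := by
      rw [hc4, hcf, hc1, hc0]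
      simp
      ring
    rw [h1]
    have h2 := (Complex.abs_re_le_norm _).trans bL
    have h3 := (Complex.abs_re_le_norm _).trans bQ
    have h4 := abs_sub (coeff (2 * n) (fun z => z ^ 3 * UU Y z * ((1 - z ^ 2)⁻¹) ^ 3)).re
      (coeff (2 * n) Q).re
    have hX : 0 ≤ (n : ℝ) ^ 3 * ep Y := by positivity
    have h5 : 17000 * (n : ℝ) ^ 3 * (2 + Real.log (2 * n)) * ep Y ≤
        45900 * (n : ℝ) ^ 3 * (1 + Real.log n) * ep Y := by
      nlinarith [mul_le_mul_of_nonneg_left l2 hX]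
    have h6 : 200 * (n : ℝ) ^ 3 * Real.log (2 * n) * ep Y ≤
        200 * (n : ℝ) ^ 3 * (1 + Real.log n) * ep Y := by
      nlinarith [mul_le_mul_of_nonneg_left l1 hX]
    have h7 : 0 ≤ (n : ℝ) ^ 3 * (1 + Real.log n) * ep Y := by positivity
    calc _ ≤ _ := h4
      _ ≤ 45900 * (n : ℝ) ^ 3 * (1 + Real.log n) * ep Y +
          200 * (n : ℝ) ^ 3 * (1 + Real.log n) * ep Y := add_le_add (h2.trans h5) (h3.trans h6)
      _ ≤ 10 ^ 5 * (n : ℝ) ^ 3 * (1 + Real.log n) * ep Y := by nlinarith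
  · have h1 : coeff n f = n - coeff (2 * n) E := by
      rw [hcf, ← hc0, hc2]; ring
    have h2 : (coeff n f).im ^ 2 ≤ ‖coeff (2 * n) E‖ ^ 2 := by
      rw [h1]
      have : ((n : ℂ) - coeff (2 * n) E).im = -(coeff (2 * n) E).im := by simp
      rw [this, neg_sq, ← sq_abs]
      exact pow_le_pow_left₀ (abs_nonneg _) (Complex.abs_im_le_norm _) 2
    have hX : 0 ≤ (n : ℝ) ^ 5 * ep Y := by positivity
    have h6 : 4000 * (n : ℝ) ^ 5 * Real.log (2 * n) * ep Y ≤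
        4000 * (n : ℝ) ^ 5 * (1 + Real.log n) * ep Y := by
      nlinarith [mul_le_mul_of_nonneg_left l1 hX]
    have h7 : 0 ≤ (n : ℝ) ^ 5 * (1 + Real.log n) * ep Y := by positivity
    calc _ ≤ _ := h2
      _ ≤ _ := bE
      _ ≤ _ := h6
      _ ≤ 10 ^ 4 * (n : ℝ) ^ 5 * (1 + Real.log n) * ep Y := by nlinarith

theorem taskM4 : TaskM4 := fun hep hL hQ hD => core hep hL hQ hD

end Pool.Agent.H886R3.Bom2
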